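import Pool.Agent.P8H14.GQ.Stm
import Pool.Agent.P8H14.PL.M5
import Pool.Agent.P8H14.SS.S3

/-!
# Project GQ, package REF: reflection in the sum of two models
-/

set_option autoImplicit false

namespace Pool.Agent.P8H89.GQ

open Finset Filter Topology
open Pool.Agent.P8H13.PK
open Pool.Agent.P8H14.SS

variable {k : ℕ}

lemma card_badset' {h : Fin k → ℕ} (hinj : Function.Injective h) {L : ℝ} (hL0 : 0 ≤ L)
    (hL : ∀ i j, ((h i - h j : ℕ) : ℝ) ≤ Real.exp L) (X : ℕ) : ((bad h X).card : ℝ) ≤ 2 * k ^ 2 * L := by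
  classical
  have h1 : bad h X ⊆ (univ : Finset (Fin k × Fin k)).biUnion
      (fun ij => ((h ij.1 - h ij.2) + (h ij.2 - h ij.1)).primeFactors) := by
    intro p hp
    unfold bad at hp
    rw [mem_filter] at hp
    have hp' := (mem_PX.1 hp.1).2
    have h2 := hp.2
    unfold Good at h2
    push Not at h2
    obtain ⟨i, j, hij, hmod⟩ := h2
    have hne : h i ≠ h j := fun h3 => hij (hinj h3)
    rw [mem_biUnion]
    refine ⟨(i, j), mem_univ _, ?_⟩
    rw [Nat.mem_primeFactors]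
    refine ⟨hp', ?_, by simp only; omega⟩
    simp only
    have hmod' : h i ≡ h j [MOD p] := hmod
    rcases Nat.lt_or_ge (h i) (h j) with hlt | hge
    · have e : h i - h j + (h j - h i) = h j - h i := by omega
      rw [e]
      exact (Nat.modEq_iff_dvd' hlt.le).1 hmod'
    · have e : h i - h j + (h j - h i) = h i - h j := by omega
      rw [e]
      exact (Nat.modEq_iff_dvd' hge).1 hmod'.symm
  have h2 : ((bad h X).card : ℝ) ≤ ∑ ij : Fin k × Fin k,
      ((((h ij.1 - h ij.2) + (h ij.2 - h ij.1)).primeFactors.card : ℕ) : ℝ) := by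
    have := (card_le_card h1).trans card_biUnion_le
    exact_mod_cast this
  refine h2.trans ?_
  refine (sum_le_card_nsmul _ _ (2 * L) fun ij _ => ?_).trans (le_of_eq ?_)
  · rcases eq_or_ne ((h ij.1 - h ij.2) + (h ij.2 - h ij.1)) 0 with h0 | h0
    · rw [h0]
      simp only [Nat.primeFactors_zero, card_empty, Nat.cast_zero]
      linarith
    · refine card_pf_le h0 ?_
      have h3 : (h ij.1 - h ij.2) + (h ij.2 - h ij.1) ≤ max (h ij.1 - h ij.2) (h ij.2 - h ij.1) := by omega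
      have h4 : (((h ij.1 - h ij.2) + (h ij.2 - h ij.1) : ℕ) : ℝ) ≤
          ((max (h ij.1 - h ij.2) (h ij.2 - h ij.1) : ℕ) : ℝ) := by exact_mod_cast h3
      refine h4.trans ?_
      rw [Nat.cast_max]
      exact max_le (hL _ _) (hL _ _)
  · rw [card_univ, Fintype.card_prod, Fintype.card_fin, nsmul_eq_mul]
    push_cast
    ring

lemma sum_ss' {h : Fin k → ℕ} (hinj : Function.Injective h) {L : ℝ} (hL1 : 1 ≤ L)
    (hL : ∀ i j, ((h i - h j : ℕ) : ℝ) ≤ Real.exp L) (X : ℕ) :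
    ∑ p ∈ PX X, (p : ℝ) ^ (1/4 : ℝ) * ss h p ≤
      KK k * ZZ + KK k * (5 * ((2 * k ^ 2 + 2) * L ^ (1/4 : ℝ))) := by
  classical
  have hK := KK_pos k
  have h1 : ∀ p ∈ PX X, (p : ℝ) ^ (1/4 : ℝ) * ss h p ≤ KK k * (p : ℝ) ^ (-(7/4) : ℝ) +
      (if ¬ Good h p then KK k * (p : ℝ) ^ (-(3/4) : ℝ) else 0) := by
    intro p hp
    have hp' := (mem_PX.1 hp).2
    have hp0 : (0:ℝ) < p := by exact_mod_cast hp'.pos
    have hr0 : 0 ≤ (p : ℝ) ^ (1/4 : ℝ) := Real.rpow_nonneg hp0.le _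
    by_cases hg : Good h p
    · rw [if_neg (not_not.2 hg)]
      have h2 := mul_le_mul_of_nonneg_left (ss_le2 hp' hg) hr0
      have h3 : (p : ℝ) ^ (1/4 : ℝ) * (KK k / p ^ 2) = KK k * (p : ℝ) ^ (-(7/4) : ℝ) := by
        have : (p : ℝ) ^ (-(7/4) : ℝ) = (p : ℝ) ^ (1/4 : ℝ) / p ^ 2 := by
          rw [← Real.rpow_natCast, ← Real.rpow_sub hp0]
          norm_num
        rw [this]
        ring
      linarith
    · rw [if_pos hg]
      have h2 := mul_le_mul_of_nonneg_left (ss_le1 (h := h) hp') hr0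
      have h3 : (p : ℝ) ^ (1/4 : ℝ) * (KK k / p) = KK k * (p : ℝ) ^ (-(3/4) : ℝ) := by
        have : (p : ℝ) ^ (-(3/4) : ℝ) = (p : ℝ) ^ (1/4 : ℝ) / p := by
          rw [← Real.rpow_sub_one hp0.ne']
          norm_num
        rw [this]
        ring
      have h4 : 0 ≤ KK k * (p : ℝ) ^ (-(7/4) : ℝ) := mul_nonneg hK.le (Real.rpow_nonneg hp0.le _)
      linarith
  refine (sum_le_sum h1).trans ?_
  rw [sum_add_distrib, ← mul_sum, ← sum_filter, ← mul_sum]
  refine add_le_add (mul_le_mul_of_nonneg_left ?_ hK.le) (mul_le_mul_of_nonneg_left ?_ hK.le)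
  · exact ZZ_sum.sum_le_tsum _ fun n _ => Real.rpow_nonneg (Nat.cast_nonneg n) _
  · have hc := card_badset' hinj (by linarith) hL X
    set N : ℕ := ⌈2 * (k:ℝ) ^ 2 * L⌉₊ + 1 with hN
    have hcN : (bad h X).card ≤ N := by
      have : ((bad h X).card : ℝ) ≤ (⌈2 * (k:ℝ) ^ 2 * L⌉₊ : ℝ) := hc.trans (Nat.le_ceil _)
      have h2 : (bad h X).card ≤ ⌈2 * (k:ℝ) ^ 2 * L⌉₊ := by exact_mod_cast this
      omega
    have h3 := sum_sparse (B := bad h X) (fun b hb => by
      unfold bad at hb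
      exact (mem_PX.1 (mem_filter.1 hb).1).2.one_le) (N := N) (by omega) hcN
    have h4 : (bad h X) = (PX X).filter fun p => ¬ Good h p := by
      unfold bad
      congr
    rw [← h4]
    refine h3.trans (mul_le_mul_of_nonneg_left ?_ (by norm_num))
    have hnn : 0 ≤ 2 * (k:ℝ) ^ 2 * L := by positivity
    have h5 : (N : ℝ) ≤ (2 * k ^ 2 + 2) * L := by
      have h6 := (Nat.ceil_lt_add_one hnn).le
      rw [hN]
      push_cast
      nlinarith
    calc (N : ℝ) ^ (1/4 : ℝ) ≤ ((2 * k ^ 2 + 2) * L) ^ (1/4 : ℝ) :=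
          Real.rpow_le_rpow (Nat.cast_nonneg N) h5 (by norm_num)
      _ = (2 * (k:ℝ) ^ 2 + 2) ^ (1/4 : ℝ) * L ^ (1/4 : ℝ) :=
          Real.mul_rpow (by positivity) (by linarith)
      _ ≤ (2 * k ^ 2 + 2) * L ^ (1/4 : ℝ) := by
          refine mul_le_mul_of_nonneg_right ?_ (Real.rpow_nonneg (by linarith) _)
          have h7 : (1:ℝ) ≤ 2 * (k:ℝ) ^ 2 + 2 := by nlinarith [sq_nonneg (k:ℝ)]
          calc (2 * (k:ℝ) ^ 2 + 2) ^ (1/4 : ℝ) ≤ (2 * (k:ℝ) ^ 2 + 2) ^ (1 : ℝ) :=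
                Real.rpow_le_rpow_of_exponent_le h7 (by norm_num)
            _ = _ := Real.rpow_one _

/-- the correlations of the truncated models, for shifts with small differences -/
theorem mo_HL' (k : ℕ) : ∃ C : ℝ, 0 < C ∧ ∀ (h Q : Fin k → ℕ) (q L : ℝ), Function.Injective h →
    1 ≤ L → 1 ≤ q → (∀ i, q ≤ Q i) → (∀ i j, ((h i - h j : ℕ) : ℝ) ≤ Real.exp L) → ∀ n : ℕ,
    |∑ t ∈ Finset.range n, ∏ i, mo 1 (Q i) 0 (t + h i) - SG h * n| ≤
      n * (Real.exp (C * L ^ (1/4 : ℝ)) * q ^ (-(1/4) : ℝ)) + 2 * ∏ i, (Q i : ℝ) ^ 2 := by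
  have hK := KK_pos k
  have hZ := ZZ_nonneg
  refine ⟨k + (KK k * ZZ + KK k * (5 * (2 * k ^ 2 + 2))), by positivity, ?_⟩
  intro h Q q L hinj hL1 hq hQ hL n
  have hL0 : 1 ≤ L ^ (1/4 : ℝ) := Real.one_le_rpow hL1 (by norm_num)
  have hq0 : 0 ≤ q ^ (-(1/4) : ℝ) := Real.rpow_nonneg (by linarith) _
  -- the bound for every `X`
  have key : ∀ X, (∑ i, Q i) ≤ X →
      |∑ t ∈ Finset.range n, ∏ i, mo 1 (Q i) 0 (t + h i) - n * ∏ p ∈ PX X, bet h p| ≤
      n * (Real.exp ((k + (KK k * ZZ + KK k * (5 * (2 * k ^ 2 + 2)))) * L ^ (1/4 : ℝ)) *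
        q ^ (-(1/4) : ℝ)) + 2 * ∏ i, (Q i : ℝ) ^ 2 := by
    intro X hX
    have hXi : ∀ i, Q i ≤ X := fun i =>
      (single_le_sum (f := Q) (fun _ _ => Nat.zero_le _) (mem_univ i)).trans hX
    have h1 := expand (h := h) hXi n
    have h2 := rankin (h := h) (X := X) hq hQ
    have h3 : ∏ p ∈ PX X, ∑ I : Finset (Fin k), mm h p I = ∏ p ∈ PX X, bet h p :=
      prod_congr rfl fun p hp => sum_mm (mem_PX.1 hp).2
    rw [h3] at h2
    have h4 : ∏ p ∈ PX X, (1 + (p : ℝ) ^ (1/4 : ℝ) * ss h p) ≤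
        Real.exp (KK k * ZZ + KK k * (5 * ((2 * k ^ 2 + 2) * L ^ (1/4 : ℝ)))) := by
      calc ∏ p ∈ PX X, (1 + (p : ℝ) ^ (1/4 : ℝ) * ss h p) ≤
          ∏ p ∈ PX X, Real.exp ((p : ℝ) ^ (1/4 : ℝ) * ss h p) := by
            refine prod_le_prod (fun p _ => ?_) fun p _ => ?_
            · have := mul_nonneg (Real.rpow_nonneg (Nat.cast_nonneg p) (1/4 : ℝ)) (ss_nonneg h p)
              linarith
            · have := Real.add_one_le_exp ((p : ℝ) ^ (1/4 : ℝ) * ss h p)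
              linarith
        _ = Real.exp (∑ p ∈ PX X, (p : ℝ) ^ (1/4 : ℝ) * ss h p) := (Real.exp_sum _ _).symm
        _ ≤ _ := Real.exp_le_exp.2 (sum_ss' hinj hL1 hL X)
    have h5 : (k : ℝ) ≤ Real.exp k := by
      have := Real.add_one_le_exp (k : ℝ)
      linarith
    have h6 : (k : ℝ) * q ^ (-(1/4) : ℝ) * ∏ p ∈ PX X, (1 + (p : ℝ) ^ (1/4 : ℝ) * ss h p) ≤
        Real.exp ((k + (KK k * ZZ + KK k * (5 * (2 * k ^ 2 + 2)))) * L ^ (1/4 : ℝ)) *
        q ^ (-(1/4) : ℝ) := by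
      have h7 : Real.exp k * Real.exp (KK k * ZZ + KK k * (5 * ((2 * k ^ 2 + 2) * L ^ (1/4 : ℝ)))) ≤
          Real.exp ((k + (KK k * ZZ + KK k * (5 * (2 * k ^ 2 + 2)))) * L ^ (1/4 : ℝ)) := by
        rw [← Real.exp_add]
        apply Real.exp_le_exp.2
        have e1 : (k : ℝ) ≤ k * L ^ (1/4 : ℝ) := le_mul_of_one_le_right (Nat.cast_nonneg k) hL0
        have e2 : KK k * ZZ ≤ KK k * ZZ * L ^ (1/4 : ℝ) :=
          le_mul_of_one_le_right (mul_nonneg hK.le hZ) hL0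
        nlinarith
      calc (k : ℝ) * q ^ (-(1/4) : ℝ) * ∏ p ∈ PX X, (1 + (p : ℝ) ^ (1/4 : ℝ) * ss h p)
          ≤ (Real.exp k * q ^ (-(1/4) : ℝ)) *
            Real.exp (KK k * ZZ + KK k * (5 * ((2 * k ^ 2 + 2) * L ^ (1/4 : ℝ)))) := by
            refine mul_le_mul (mul_le_mul_of_nonneg_right h5 hq0) h4 (prod_nonneg fun p _ => ?_)
              (by positivity)
            have := mul_nonneg (Real.rpow_nonneg (Nat.cast_nonneg p) (1/4 : ℝ)) (ss_nonneg h p)
            linarith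
        _ = (Real.exp k * Real.exp (KK k * ZZ + KK k * (5 * ((2 * k ^ 2 + 2) * L ^ (1/4 : ℝ))))) *
            q ^ (-(1/4) : ℝ) := by ring
        _ ≤ _ := mul_le_mul_of_nonneg_right h7 hq0
    have h8 := (h2.trans h6)
    set T := ∑ A ∈ Fintype.piFinset (fun i => TQ X (Q i)), ∏ p ∈ PX X, mm h p (IA A p) with hT
    have h9 : |(n : ℝ) * T - n * ∏ p ∈ PX X, bet h p| ≤
        n * (Real.exp ((k + (KK k * ZZ + KK k * (5 * (2 * k ^ 2 + 2)))) * L ^ (1/4 : ℝ)) *
        q ^ (-(1/4) : ℝ)) := by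
      rw [← mul_sub, abs_mul, abs_of_nonneg (Nat.cast_nonneg n : (0:ℝ) ≤ n)]
      exact mul_le_mul_of_nonneg_left h8 (Nat.cast_nonneg n)
    have h10 := abs_sub_le (∑ t ∈ Finset.range n, ∏ i, mo 1 (Q i) 0 (t + h i)) (n * T)
      (n * ∏ p ∈ PX X, bet h p)
    linarith
  have hlim : Tendsto (fun X : ℕ => |∑ t ∈ Finset.range n, ∏ i, mo 1 (Q i) 0 (t + h i) -
      n * ∏ p ∈ PX X, bet h p|) atTop
      (𝓝 |∑ t ∈ Finset.range n, ∏ i, mo 1 (Q i) 0 (t + h i) - n * SG h|) :=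
    (((tendsto_SG hinj).const_mul (n : ℝ)).const_sub _).abs
  rw [mul_comm (SG h)]
  refine le_of_tendsto hlim ?_
  filter_upwards [eventually_ge_atTop (∑ i, Q i)] with X hX
  exact key X hX

lemma mo_congr (Q a b : ℕ) (h : ∀ p : ℕ, p.Prime → p ≤ Q → (p ∣ a ↔ p ∣ b)) : mo 1 Q 0 a = mo 1 Q 0 b := by
  unfold mo
  apply sum_congr rfl
  intro r hr'
  rw [mem_RQ] at hr'
  unfold hr
  apply prod_congr rfl
  intro p hp
  have hp' := Nat.prime_of_mem_primeFactors hp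
  apply lf_congr
  rw [zero_add, zero_add, one_mul, one_mul]
  exact h p hp' ((Nat.le_of_dvd (by omega) (Nat.dvd_of_mem_primeFactors hp)).trans hr'.1.2)

lemma SG_shift (u s : ℕ) : SG ![u, u + s] = SG ![0, s] := by
  unfold SG
  apply tprod_congr
  intro p
  congr 3
  have e : ∀ a b : ℕ, ((univ : Finset (Fin 2)).image (fun i : Fin 2 => (![a, b] : Fin 2 → ℕ) i % (p : ℕ))) =
      {a % (p : ℕ), b % (p : ℕ)} := by
    intro a b
    ext x
    simp only [mem_image, mem_univ, true_and, mem_insert, mem_singleton]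
    constructor
    · rintro ⟨i, hi⟩
      fin_cases i
      · left; exact hi.symm
      · right; exact hi.symm
    · rintro (h | h)
      · exact ⟨0, h.symm⟩
      · exact ⟨1, h.symm⟩
  rw [e, e]
  have key : u % (p : ℕ) = (u + s) % (p : ℕ) ↔ 0 % (p : ℕ) = s % (p : ℕ) := by
    constructor
    · intro h
      have h1 : u + 0 ≡ u + s [MOD (p : ℕ)] := by
        rw [add_zero]
        exact h
      exact Nat.ModEq.add_left_cancel' u h1
    · intro h
      have h1 : u + 0 ≡ u + s [MOD (p : ℕ)] := Nat.ModEq.add_left u h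
      rw [add_zero] at h1
      exact h1
  by_cases h : 0 % (p : ℕ) = s % (p : ℕ)
  · rw [← h, ← key.2 h]
    simp
  · rw [card_pair h, card_pair (fun h' => h (key.1 h'))]

theorem ref : Pool.Agent.P8H14.GQ.S_REF := by
  obtain ⟨C, hC, hm⟩ := mo_HL' 2
  refine ⟨C, hC, fun Q s X L hL hQ hs hsL hX => ?_⟩
  have hP := Pool.Agent.P8H14.PL.Pr_pos Q
  obtain ⟨u, hu⟩ : ∃ u, u = X * Pool.Agent.P8H14.PL.Pr Q - X := ⟨_, rfl⟩
  have huX : u + X = X * Pool.Agent.P8H14.PL.Pr Q := by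
    have : X ≤ X * Pool.Agent.P8H14.PL.Pr Q := Nat.le_mul_of_pos_right X hP
    omega
  have hdvd : ∀ p : ℕ, p.Prime → p ≤ Q → p ∣ u + X := by
    intro p hp hpQ
    rw [huX]
    apply Dvd.dvd.mul_left
    unfold Pool.Agent.P8H14.PL.Pr
    exact dvd_prod_of_mem _ (Pool.Agent.P8H14.PL.mem_PQs.2 ⟨hpQ, hp⟩)
  have h1 := hm ![u, u + s] (fun _ => Q) Q L (by
    intro i j hij
    fin_cases i <;> fin_cases j
    · rfl
    · simp at hij; omega
    · simp at hij; omega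
    · rfl) hL (by exact_mod_cast hQ) (fun _ => le_rfl) (by
    intro i j
    have h0 : (0 : ℝ) ≤ Real.exp L := (Real.exp_pos L).le
    fin_cases i <;> fin_cases j
    · simpa using h0
    · simpa using h0
    · simpa using hsL
    · simpa using h0) X
  rw [SG_shift] at h1
  have e1 : ∑ t ∈ Finset.range X, ∏ i : Fin 2, mo 1 Q 0 (t + (![u, u + s] : Fin 2 → ℕ) i) =
      ∑ n ∈ Icc 1 X, mo 1 Q 0 n * mo 1 Q 0 (s - n) := by
    apply sum_bij' (fun t _ => X - t) (fun n _ => X - n)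
    · intro t ht
      rw [mem_range] at ht
      rw [mem_Icc]
      omega
    · intro n hn
      rw [mem_Icc] at hn
      rw [mem_range]
      omega
    · intro t ht
      rw [mem_range] at ht
      omega
    · intro n hn
      rw [mem_Icc] at hn
      omega
    · intro t ht
      rw [mem_range] at ht
      rw [Fin.prod_univ_two]
      simp only [Matrix.cons_val_zero, Matrix.cons_val_one]
      congr 1
      · apply mo_congr
        intro p hp hpQ
        have h2 := hdvd p hp hpQ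
        have e : u + X = (t + u) + (X - t) := by omega
        rw [e] at h2
        exact ⟨fun h3 => (Nat.dvd_add_right h3).1 h2, fun h3 => (Nat.dvd_add_left h3).1 h2⟩
      · apply mo_congr
        intro p hp hpQ
        have h2 := hdvd p hp hpQ
        have e : t + (u + s) = (s - (X - t)) + (u + X) := by omega
        rw [e]
        exact (Nat.dvd_add_left h2)
  rw [e1] at h1
  refine h1.trans (le_of_eq ?_)
  rw [Fin.prod_univ_two]
  ring

end Pool.Agent.P8H89.GQ
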